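import Pool.Agent.Helper90.FC.Iter

/-!
# Finite generation of cohomology along central extensions of Hopf algebras

Let `k` be any field and `k → A → B → C → k` an exact sequence of Hopf algebras over `k` such that
`B` is finite-dimensional and `A` is central in `B`.  We show: if `C` satisfies the FGC conjecture
then `B` satisfies the FGC conjecture.  (The kernel `A` is commutative; nothing is assumed on `B`
and `C`, in particular they need not be commutative, cocommutative, pointed or local.)  The theorem
is stated for the sequences obtained by iterating such extensions.

The definitions used are in `Pool/Agent/Helper59/FG/CohDefs.lean`, `Pool/Agent/Helper90/FC/Defs.lean`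
and `Pool/Agent/Helper90/FC/IterDefs.lean`: `trivObj k B` is `k` with the action through the counit,
as an object of `ModuleCat B`; `EndExt X n` is Mathlib's group `Ext X X n`, and `⨁ n, EndExt X n`
carries the ring structure given by the Yoneda product `x * y = x.comp y`; `KExt k M n` is the group
`Ext (trivObj k B) M n = H^n(B, M)`, and `⨁ n, KExt k M n` is a module over
`⨁ n, EndExt (trivObj k B) n = H^*(B, k)` by the Yoneda product; `FGC k B` says that
`H^*(B, k)` is a finitely generated algebra and that `H^*(B, M)` is a finitely generated module over
it for all finite-dimensional `M`; `CentralExact k ι π` says that `ι` is injective, `π` surjective,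
`ι(A)` central and that the kernel of `π` is the left ideal generated by `ι(A⁺)`;
`IterCentral k C B` says that `B` is obtained from `C` by finitely many (possibly zero) such central
extensions: it holds for `B = C`, and if `A → B → B'` is exact, `A` central in `B`, and
`IterCentral k C B'` holds then `IterCentral k C B` holds.
-/

open Pool.Agent.Helper90.FC

namespace Pool.Agent.Results.MP_2cde66_al.CentralExtensions

universe u

/-- If `B` is a finite-dimensional Hopf algebra which is an iterated central extension of `C` (for
instance, the middle term of an exact sequence `k → A → B → C → k` of Hopf algebras with `A` central
in `B`) and `C` satisfies the FGC conjecture, then so does `B`. -/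
theorem result (k : Type u) [Field k] (B C : Type u) [Ring B] [Ring C] [HopfAlgebra k B]
    [HopfAlgebra k C] [Module.Finite k B] (h : IterCentral k C B) (hC : FGC k C) : FGC k B :=
  central_iter hC h inferInstance

end Pool.Agent.Results.MP_2cde66_al.CentralExtensions
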