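import Pool.Agent.Helper45.EQ.Asm
import Pool.Agent.Helper77.EQ.Fd

/-!
# Tame representations of every dimension over every number field

Let `K` be any number field (for example the field of rational numbers), `n ≥ 1`, and `c = 2 ^ k ≥ 2` with
`2 (n - 1) ≤ c`. There are cyclic extensions `F` of `K` of degree `c` in which all infinite places of `K`
split (`exists_field`). For every such `F` and all sufficiently large prime numbers `p` congruent to `1`
modulo `c` we prove that there are infinitely many sets `S` of THREE primes of `K` with the following
property. Let `S'` be a finite set of primes of `K` such that all `v` in `S'` which do not lie above `p` and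
such that `p` divides `(N v) ^ c - 1` belong to `S`, and let `A` be any complete Noetherian local ring with
finite residue field of characteristic `p`. Then all continuous homomorphisms `ρ` from the absolute Galois
group of `K` to `GL_m(A)` with `m ≤ n`, which are unramified outside `S'` and at most tamely ramified in
`S'`, and such that the image of the absolute Galois group of `F` in `PGL_m` of the residue field is a
`p`-group, have finite image (`result`). The same is true for representations of the absolute Galois group
of `F` which are ramified only at the primes above `S` and at primes whose norm is not congruent to `1`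
modulo `p`.

The Galois group `G_{F,S}(p)` of the maximal `p`-extension of `F` unramified outside the primes above `S` is
infinite if `p` is not too small: there is a cyclic extension `L` of `F` of degree `p` which is Galois over
`K` and unramified outside `S`, whose group of units has rank `c p (r + 1) - 1`, where `r` is the rank of
the group of units of `K`, and there are exactly `p ^ (δ + 1)` continuous characters of the absolute Galois
group of `L` with values in the group of order `p` which are unramified outside the primes above `S`; here
`δ` is any number congruent to `1` modulo `c` with `2 δ ≤ p`. By results of Shafarevich and Koch the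
Galois group of the maximal `p`-extension of `L` unramified outside the primes above `S`, which is a
subgroup of `G_{F,S}(p)` of index `p`, is generated by `δ + 1` elements and can be presented by
`δ + c p (r + 1)` relations. If `16 c (r + 1) + 4 c + 2 ≤ p`, then `δ` can be chosen such that
`4 (δ + c p (r + 1)) ≤ (δ + 1) ^ 2` (`golod`), and this group is infinite by the theorem of Golod and
Shafarevich.

Idea of the proof.

1. Let `Γ` be the Galois group of `L` over `K`. It is generated by `h` of order `p` and `σ` of order `c`,
and `σ h σ⁻¹ = h ^ ω` where `ω` has order `c` in the multiplicative group of the field with `p` elements.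
The primes `v₀`, `v₁`, `v₂` in `S` are found with a form of the density theorem of Frobenius: a cyclic
extension `E` of degree `2 ^ a` of a number field `M` and a functional on finitely many elements of `E`
which transforms under the generator by `g` modulo `p` are given; then there is a prime of `M` of degree one
with only one prime of `E` above it, whose logarithm modulo `p` has the given values (`stepN`).

2. The prime `v₀` has one prime above it in `F`, all units of `F` are `p`-th powers modulo this prime, and
its norm over `K` has order `c` modulo `p`. It defines the field `L`. The dual `Y` of the group of units of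
`L` modulo `p`-th powers is almost free over the group ring of `⟨h⟩`, and contains a functional `μ`
whose products with the norm element of `⟨h⟩` and with the elements of the group ring of `⟨σ⟩` vanish only
in the obvious cases; it comes from a unit of `F` which is large at only one infinite place.

3. Let `D = - log h`, a derivation of the polynomial functions of `s` in the field with `p` elements. The
primes of `L` above `v₁` and `v₂` are the `h ^ s σ ^ j w₁`, `h ^ s σ ^ j w₂`, `j < c / 2`, because the
decomposition groups have order two. The norm of `v₁` is congruent to `-1` modulo `p ^ 2`, the norm of `v₂`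
is congruent to `1` modulo `p` and not modulo `p ^ 2`. The logarithms at `w₁` and `w₂` on the units are
the odd and the even part of a functional `l` in `Y` such that the characters of `L` unramified outside the
primes above `S` are given by the polynomials `f` of degree at most `δ`: the coordinate at
`h ^ s σ ^ j w₁` is `ω ^ j f'(s)`, and at `h ^ s σ ^ j w₂` it is `f(s)`. The logarithms at `w₂` of the
conjugates of a generator of `w₁ ^ (2 h_L)` can be chosen such that the value of the character at a
Frobenius element of `h ^ s σ ^ j w₁` is `- ∑ ω ^ (2 e j) f^(2 e)(s)`, the sum over `e < c / 2`.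

4. Let `γ(s) = (1, s, ..., s ^ δ)`. As in the hand-in UnitRank, the first coefficient of a
representation over a discrete valuation ring gives alternating forms `W` on the space of dimension `δ + 1`
of rank at most `2 (m - 1)`, and the relations at the primes above `v₁` say that
`∑ ω ^ (j (2 e + 1)) W(γ^(2 e)(s), γ'(s)) = 0` for all `j < c / 2`. So the character `ω` separates the
orders: `W(γ^(2 e)(s), γ'(s)) = 0` for all `e < c / 2`. If `W` is not zero and `i` is the order of vanishing of
`W(γ(s), γ(t))` on the diagonal, then `i` is odd, so `i > c`, and the matrix of the mixed derivatives of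
order at most `i` is triangular, so the rank of `W` is more than `c ≥ 2 (n - 1)`, a contradiction
(`rig_osc`). So `W = 0`, and the primes above `v₂` show that the linear forms vanish also. The criterion of
the earlier hand-ins gives finite image for `L`, and this gives finite image for `F` and `K`.
-/

set_option autoImplicit false

open NumberField IsLocalRing Matrix

open scoped Pointwise

namespace Pool.Agent.Results.MP_924d78_nt.EveryDimension

/-- The absolute Galois group of the field `K`. -/
abbrev G (K : Type) [Field K] : Type := AlgebraicClosure K ≃ₐ[K] AlgebraicClosure K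

/-- The homomorphism `ρ` is unramified outside `S` and at most tamely ramified in `S`: for every
number field `F` containing `K` and embedded over `K` into the fixed field of the kernel of `ρ`,
and every maximal ideal `P` of the ring of integers of `F` above a prime `q` of `K`, the ramification
index `e` of `P` over `q` is `1` if `q ∉ S` and is prime to the residue characteristic if `q ∈ S`. -/
def TameAt (K : Type) [Field K] [NumberField K] (S : Set (Ideal (𝓞 K))) {H : Type} [Group H]
    (ρ : G K →* H) : Prop :=
  ∀ (F : Type) [Field F] [NumberField F] [Algebra K F] (ι : F →ₐ[K] AlgebraicClosure K),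
    ι.fieldRange ≤ IntermediateField.fixedField ρ.ker →
    ∀ (P : Ideal (𝓞 F)), P.IsMaximal →
    ∀ (q : Ideal (𝓞 K)), q = P.comap (algebraMap (𝓞 K) (𝓞 F)) →
    ∀ e : ℕ, q.map (algebraMap (𝓞 K) (𝓞 F)) ≤ P ^ e →
      ¬ (q.map (algebraMap (𝓞 K) (𝓞 F)) ≤ P ^ (e + 1)) →
      (q ∉ S → e = 1) ∧ (q ∈ S → ¬ (ringChar (𝓞 K ⧸ q) ∣ e))

/-- The residual representation: the reduction of `ρ` modulo the maximal ideal. -/
noncomputable def residual {Γ A : Type} [Group Γ] [CommRing A] [IsLocalRing A] {n : ℕ}
    (ρ : Γ →* GL (Fin n) A) : Γ →* GL (Fin n) (ResidueField A) :=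
  (Matrix.GeneralLinearGroup.map (residue A)).comp ρ

/-- The projective image of `τ` is a `p`-group: for every `g` some power of `τ g` with exponent a
power of `p` is scalar. -/
def ProjectivelyP (p : ℕ) {Γ k : Type} [Group Γ] [Field k] {n : ℕ} (τ : Γ →* GL (Fin n) k) : Prop :=
  ∀ g, ∃ (j : ℕ) (a : k), ((τ g ^ p ^ j : GL (Fin n) k) : Matrix (Fin n) (Fin n) k) = a • 1

/-- The homomorphism `ψ` to the group of order `p` is continuous and unramified outside `S`: its kernel
is open and it is trivial on the inertia groups of all maximal ideals `Q` of the ring of all algebraic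
integers which lie above a prime outside `S`. -/
def UnramifiedOutside (p : ℕ) {K : Type} [Field K] [NumberField K] (S : Set (Ideal (𝓞 K)))
    (ψ : G K →* Multiplicative (ZMod p)) : Prop :=
  IsOpen (ψ.ker : Set (G K)) ∧ ∀ Q : Ideal (𝓞 (AlgebraicClosure K)), Q.IsMaximal →
    Q.comap (algebraMap (𝓞 K) (𝓞 (AlgebraicClosure K))) ∉ S → ∀ γ ∈ Q.inertia (G K), ψ γ = 1

/-- The field `F` is a cyclic extension of `K` of degree `c`, and all infinite places of `K` split
completely in `F`. -/
structure SplitCyclic (K : Type) [Field K] [NumberField K] (c : ℕ)
    (F : IntermediateField K (AlgebraicClosure K)) : Prop where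
  galois : IsGalois K F
  cyclic : IsCyclic (F ≃ₐ[K] F)
  degree : Module.finrank K F = c
  infinite : IsUnramifiedAtInfinitePlaces K F

/-- The set `S` consists of three primes `P` of `K`, the residue fields of `P` have a prime number `q`
of elements, and `q ^ c` is congruent to `1` modulo `p`. -/
structure Primes (p c : ℕ) (K : Type) [Field K] [NumberField K] (S : Finset (Ideal (𝓞 K))) :
    Prop where
  card_eq : S.card = 3
  maximal : ∀ P ∈ S, P.IsMaximal
  prime : ∀ P ∈ S, (Nat.card (𝓞 K ⧸ P)).Prime
  dvd : ∀ P ∈ S, p ∣ Nat.card (𝓞 K ⧸ P) ^ c - 1

/-- The number field `L` is a Galois extension of `K` and a cyclic extension of `F` of degree `p`, it is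
unramified over `F` outside `S`, the rank of its group of units is `c p (r + 1) - 1`, where `c` is the
degree of `F` over `K` and `r` is the rank for `K`, and there are `p ^ d` continuous homomorphisms from
the absolute Galois group of `L` to the group of order `p` which are unramified outside the primes above
`S`. -/
structure Layer (p : ℕ) (K F L : Type) [Field K] [NumberField K] [Field F] [NumberField F] [Field L]
    [NumberField L] [Algebra K F] [Algebra F L] [Algebra K L] (d : ℕ) (S : Set (Ideal (𝓞 K))) :
    Prop where
  tower : IsScalarTower K F L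
  galois : IsGalois K L
  degree : Module.finrank F L = p
  unramified : ∀ P : Ideal (𝓞 L), P.IsMaximal → P.comap (algebraMap (𝓞 K) (𝓞 L)) ∉ S →
    ¬ (P.comap (algebraMap (𝓞 F) (𝓞 L))).map (algebraMap (𝓞 F) (𝓞 L)) ≤ P ^ 2
  rank_eq : Units.rank L + 1 = Module.finrank K F * p * (Units.rank K + 1)
  characters : Nat.card {ψ : G L →* Multiplicative (ZMod p) //
    UnramifiedOutside p {P | P.comap (algebraMap (𝓞 K) (𝓞 L)) ∈ S} ψ} = p ^ d

/-- There are fields `F` as above of every degree `2 ^ k`. -/
theorem exists_field (K : Type) [Field K] [NumberField K] (k : ℕ) :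
    ∃ (F : IntermediateField K (AlgebraicClosure K)) (_ : NumberField F),
      SplitCyclic K (2 ^ k) F := by
  obtain ⟨F, hF, h1, h2, h3, h4⟩ := Helper77.EQ.exists_cyc' K (c := 2 ^ k) (by positivity)
  exact ⟨F, hF, ⟨h1, h2, h3, h4⟩⟩

/-- Let `K` be a number field, `k ≥ 1`, `2 (n - 1) ≤ 2 ^ k`, and let `F` be a cyclic extension of `K` of
degree `2 ^ k` in which the infinite places split. For all large `p` congruent to `1` modulo `2 ^ k`, all
`δ` congruent to `1` modulo `2 ^ k` with `2 δ ≤ p` and all finite sets `B` of primes of `K` there are a set
`S` of three primes outside `B` as in `Primes` and a field `L` as in `Layer` with `p ^ (δ + 1)` characters,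
such that for all complete Noetherian local rings `A` with finite residue field of characteristic `p` and
all `m ≤ n`: all `ρ` from the absolute Galois group of `K` to `GL_m(A)` which are tame and ramified only in
a finite set `S'` whose members `P`, not above `p`, with `p ∣ (N P) ^ (2 ^ k) - 1` are in `S`, and whose
residual representation restricted to `F` has projective image a `p`-group, have finite image; and all `ρ`
from the absolute Galois group of `F` to `GL_m(A)` which are tame and ramified only in a finite set `S'`
whose members, not above `p`, with norm congruent to `1` modulo `p` are above `S`, and whose projective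
residual image is a `p`-group, have finite image. -/
theorem result (K : Type) [Field K] [NumberField K] (n k : ℕ) (hk : 1 ≤ k)
    (hn : 2 * (n - 1) ≤ 2 ^ k) (F : IntermediateField K (AlgebraicClosure K)) [NumberField F]
    (hF : SplitCyclic K (2 ^ k) F) :
    ∃ N : ℕ, ∀ (p : ℕ) [Fact p.Prime], N < p → p ≡ 1 [MOD 2 ^ k] → ∀ δ : ℕ, δ ≡ 1 [MOD 2 ^ k] →
      2 * δ ≤ p → ∀ B : Set (Ideal (𝓞 K)), B.Finite →
      ∃ S : Finset (Ideal (𝓞 K)), (∀ P ∈ S, P ∉ B) ∧ Primes p (2 ^ k) K S ∧
      (∃ (L : Type) (_ : Field L) (_ : NumberField L) (_ : Algebra K L) (_ : Algebra F L),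
        Layer p K F L (δ + 1) (S : Set (Ideal (𝓞 K)))) ∧
      ∀ (A : Type) [CommRing A] [IsLocalRing A] [IsNoetherianRing A] [TopologicalSpace A]
      [CharP (ResidueField A) p] [Finite (ResidueField A)] [IsAdicComplete (maximalIdeal A) A],
      IsAdic (maximalIdeal A) → ∀ m ≤ n,
      (∀ S' : Set (Ideal (𝓞 K)), S'.Finite →
        (∀ P ∈ S', P.IsMaximal → (p : 𝓞 K) ∉ P → p ∣ Nat.card (𝓞 K ⧸ P) ^ 2 ^ k - 1 → P ∈ S) →
        ∀ (ρ : G K →* GL (Fin m) A), Continuous ρ → TameAt K S' ρ →
        ProjectivelyP p ((residual ρ).comp F.fixingSubgroup.subtype) → (Set.range ρ).Finite) ∧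
      ∀ S' : Set (Ideal (𝓞 F)), S'.Finite →
        (∀ P ∈ S', P.IsMaximal → (p : 𝓞 F) ∉ P → p ∣ Nat.card (𝓞 F ⧸ P) - 1 →
          P.comap (algebraMap (𝓞 K) (𝓞 F)) ∈ S) →
        ∀ (ρ : G F →* GL (Fin m) A), Continuous ρ → TameAt F S' ρ →
        ProjectivelyP p (residual ρ) → (Set.range ρ).Finite := by
  obtain ⟨N, hN⟩ := Helper90.EQ.final K n k hk hn F hF.galois hF.cyclic hF.degree hF.infinite
  refine ⟨N, fun p _ hp hpk δ hδ hδp B hB => ?_⟩
  obtain ⟨S, h1, h2, ⟨L, _, _, _, _, h3, h4, h5, h6, h7, h8, h9⟩, h10, h11⟩ :=
    hN p hp hpk δ hδ hδp B hB
  refine ⟨S, fun P hP => (h2 P hP).1, ⟨h1, fun P hP => (h2 P hP).2.1, fun P hP => (h2 P hP).2.2.1,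
    fun P hP => (h2 P hP).2.2.2⟩, ⟨L, _, _, _, _, ⟨h3, h4, h6, h7, ?_, h9⟩⟩, ?_⟩
  · rw [h8, hF.degree]
    ring
  · intro A _ _ _ _ _ _ _ hA m hm
    refine ⟨fun S' hS' hSS ρ hρ hT hr => h11 S' hS' hSS A hA m hm ρ hρ hT fun g hg => hr ⟨g, hg⟩,
      fun S' hS' hSS ρ hρ hT hr => h10 S' hS' hSS A hA m hm ρ hρ hT hr⟩

/-- If `16 c (r + 1) + 4 c + 2 ≤ p`, then `δ` can be chosen such that the inequality of Golod and
Shafarevich for `δ + 1` generators and `δ + c p (r + 1)` relations is satisfied. -/
theorem golod {p r c : ℕ} (hc : 1 ≤ c) (h : 16 * c * (r + 1) + 4 * c + 2 ≤ p) :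
    ∃ δ, δ ≡ 1 [MOD c] ∧ 1 ≤ δ ∧ 2 * δ ≤ p ∧ 4 * (δ + c * p * (r + 1)) ≤ (δ + 1) ^ 2 := by
  have hr : 1 ≤ c * (r + 1) := Nat.mul_pos hc (Nat.succ_pos r)
  obtain ⟨s, hs⟩ : ∃ s, p = 2 * s ∨ p = 2 * s + 1 := ⟨p / 2, by omega⟩
  have h1 : 16 * c * (r + 1) = 16 * (c * (r + 1)) := by ring
  rw [h1] at h
  have hd := Nat.div_add_mod (s - 1) c
  have hm := Nat.mod_lt (s - 1) hc
  refine ⟨c * ((s - 1) / c) + 1, ?_, by omega, by omega, ?_⟩
  · unfold Nat.ModEq
    rw [Nat.mul_add_mod]
  · set δ := c * ((s - 1) / c) + 1 with hδ
    have h2 : p + 3 ≤ 2 * (δ + 1) + 2 * c := by omega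
    have h3 : 2 * δ ≤ p := by omega
    have h4 : c * p * (r + 1) = c * (r + 1) * p := by ring
    rw [h4]
    generalize c * (r + 1) = u at *
    nlinarith [mul_le_mul h2 h2 (by omega) (by omega)]

end Pool.Agent.Results.MP_924d78_nt.EveryDimension
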